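import Pool.Agent.K1H82.LS.Main

/-!
# Composite numbers in sumsets, if one summand lies in a slightly shorter arithmetic progression

Let `a + b < 4 θ`. If `N` is large, `A` and `B` are subsets of `{1, ..., N}` with at least `N ^ θ`
elements, `A` lies in an arithmetic progression with at most `N ^ a` terms and `B` in one with at most
`N ^ b` terms, then `A + B` contains a composite number. For `θ = 0.49`, `a = 1`, `b = 0.95` there is no
condition on `A`, see `exponent49`.

Outline.  If all sums are primes, then for the primes `p ≤ N ^ θ / 4` the sets `A` (without its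
smallest elements) and `B` occupy `α_p` and `β_p` residue classes with `α_p + β_p ≤ p`.  Gallagher's
larger sieve, applied to both sets in their progressions, bounds `∑ log p / α_p` and `∑ log p / β_p`
by `a log N + O(1)` and `b log N + O(1)`; as `1 / α_p + 1 / β_p ≥ 4 / p`, this contradicts Mertens'
theorem.  The prime divisors of the differences of the progressions are omitted.
-/

set_option autoImplicit false

namespace Pool.Agent.Results.MP_4b09b1_nt.StructuredSummand

open Finset

/-- `A` is contained in an arithmetic progression `c, c + q, ..., c + (L - 1) q` with `L` terms -/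
def InProgression (A : Finset ℕ) (L : ℕ) : Prop := ∃ c q : ℕ, ∀ x ∈ A, ∃ i < L, x = c + i * q

/-- **Theorem.** Let `a, b ≥ 0` and `a + b < 4 θ`. For all large `N` and all sets `A`, `B` of integers in
`1, ..., N`, each of size at least `N ^ θ`, contained in arithmetic progressions with at most `N ^ a`
and at most `N ^ b` terms, there are `x` in `A` and `y` in `B` with `x + y` composite. -/
theorem result (θ a b : ℝ) (ha : 0 ≤ a) (hb : 0 ≤ b) (h : a + b < 4 * θ) :
    ∃ N₀ : ℕ, ∀ N : ℕ, N₀ ≤ N → ∀ A B : Finset ℕ, A ⊆ Finset.Icc 1 N → B ⊆ Finset.Icc 1 N →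
      (N : ℝ) ^ θ ≤ A.card → (N : ℝ) ^ θ ≤ B.card →
      (∃ L : ℕ, (L : ℝ) ≤ (N : ℝ) ^ a ∧ InProgression A L) →
      (∃ L : ℕ, (L : ℝ) ≤ (N : ℝ) ^ b ∧ InProgression B L) →
      ∃ x ∈ A, ∃ y ∈ B, 1 < x + y ∧ ¬ (x + y).Prime :=
  Pool.Agent.K1H82.LS.main ha hb h

/-- The exponent of the problem: no condition on `A`, and `B` lies in an arithmetic progression with at
most `N ^ 0.95` terms. -/
theorem exponent49 :
    ∃ N₀ : ℕ, ∀ N : ℕ, N₀ ≤ N → ∀ A B : Finset ℕ, A ⊆ Finset.Icc 1 N → B ⊆ Finset.Icc 1 N →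
      (N : ℝ) ^ (0.49 : ℝ) ≤ A.card → (N : ℝ) ^ (0.49 : ℝ) ≤ B.card →
      (∃ L : ℕ, (L : ℝ) ≤ (N : ℝ) ^ (0.95 : ℝ) ∧ InProgression B L) →
      ∃ x ∈ A, ∃ y ∈ B, 1 < x + y ∧ ¬ (x + y).Prime := by
  obtain ⟨N₀, h⟩ := result 0.49 1 0.95 (by norm_num) (by norm_num) (by norm_num)
  refine ⟨N₀, fun N hN A B hA hB h1 h2 h3 => h N hN A B hA hB h1 h2 ⟨N, ?_, 1, 1, fun x hx => ?_⟩ h3⟩
  · rw [Real.rpow_one]
  · have := Finset.mem_Icc.mp (hA hx)
    exact ⟨x - 1, by omega, by omega⟩

end Pool.Agent.Results.MP_4b09b1_nt.StructuredSummand
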